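import Pool.Agent.ISO.StmtsD

/-!
# ISO row DTY: Taylor formula of order two for the ideals `Mx`
-/

set_option autoImplicit false

namespace Pool.Agent.ISO.H64

open MvPolynomial Pool.Agent.Helper32_OMP Pool.Agent.ISO

theorem dty (hM : DmxStmt) : DtyStmt := by
  intro k σ _ _ f ψ b m hb
  classical
  obtain ⟨hmul, hanti, -, -⟩ := hM k σ
  have hD : ∀ g : MvPolynomial σ k, ∑ l, b l * aeval ψ (pderiv l g) ∈ Mx k σ m :=
    fun g => Ideal.sum_mem _ fun l _ => Ideal.mul_mem_right _ _ (hb l)
  induction f using MvPolynomial.induction_on with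
  | C c =>
    have h1 : aeval (fun l => ψ l + b l) (C c) - aeval ψ (C c) -
        ∑ l, b l * aeval ψ (pderiv l (C c)) = (0 : MvPolynomial σ k) := by
      simp
    rw [h1]
    exact Ideal.zero_mem _
  | add p q hp hq =>
    have h1 : aeval (fun l => ψ l + b l) (p + q) - aeval ψ (p + q) -
        ∑ l, b l * aeval ψ (pderiv l (p + q)) =
        (aeval (fun l => ψ l + b l) p - aeval ψ p - ∑ l, b l * aeval ψ (pderiv l p)) +
        (aeval (fun l => ψ l + b l) q - aeval ψ q - ∑ l, b l * aeval ψ (pderiv l q)) := by
      have h2 : ∑ l, b l * aeval ψ (pderiv l (p + q)) =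
          ∑ l, b l * aeval ψ (pderiv l p) + ∑ l, b l * aeval ψ (pderiv l q) := by
        rw [← Finset.sum_add_distrib]
        refine Finset.sum_congr rfl fun l _ => ?_
        rw [map_add, map_add, mul_add]
      rw [h2, map_add, map_add]
      ring
    rw [h1]
    exact Ideal.add_mem _ hp hq
  | mul_X p i hp =>
    have h2 : ∑ l, b l * aeval ψ (pderiv l (p * X i)) =
        (∑ l, b l * aeval ψ (pderiv l p)) * ψ i + aeval ψ p * b i := by
      have h3 : ∀ l, b l * aeval ψ (pderiv l (p * X i)) =
          b l * aeval ψ (pderiv l p) * ψ i + (if l = i then aeval ψ p * b l else 0) := by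
        intro l
        rw [Derivation.leibniz, map_add, smul_eq_mul, smul_eq_mul, map_mul, map_mul, aeval_X,
          pderiv_X]
        by_cases h : l = i
        · subst h
          simp only [Pi.single_eq_same, map_one, if_true]
          ring
        · rw [if_neg h, Pi.single_eq_of_ne (Ne.symm h), map_zero]
          ring
      rw [Finset.sum_congr rfl fun l _ => h3 l, Finset.sum_add_distrib, ← Finset.sum_mul,
        Finset.sum_ite_eq' Finset.univ i, if_pos (Finset.mem_univ i)]
    have h1 : aeval (fun l => ψ l + b l) (p * X i) - aeval ψ (p * X i) -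
        ∑ l, b l * aeval ψ (pderiv l (p * X i)) =
        (aeval (fun l => ψ l + b l) p - aeval ψ p - ∑ l, b l * aeval ψ (pderiv l p)) *
          (ψ i + b i) + (∑ l, b l * aeval ψ (pderiv l p)) * b i := by
      rw [h2, map_mul, map_mul, aeval_X, aeval_X]
      ring
    rw [h1]
    refine Ideal.add_mem _ (Ideal.mul_mem_right _ _ hp) ?_
    rw [two_mul]
    exact hmul m m _ _ (hD p) (hb i)

end Pool.Agent.ISO.H64
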