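import Pool.Agent.ISO.StmtsM

/-!
# ISO row MVZ: moving the fibre commutes with closed subschemes
-/

set_option autoImplicit false

namespace Pool.Agent.ISO.H64

open MvPolynomial Pool.Agent.Helper6_Mono Pool.Agent.ISO

theorem eqs_iff {k : Type} [Field k] {σ : Type} {f f1 : MvPolynomial σ k} {p : σ → k}
    (hp : eval p f = 0) (V : GSch f1) (h : MvPolynomial V.Idx k) (c : CharMu)
    (hh : Hom V.wt h c) (e : MvPolynomial V.Idx k) :
    e ∈ (mv f p hp (V.zero h c hh)).eqs ↔ e ∈ ((mv f p hp V).zero h c hh).eqs := by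
  constructor
  · rintro ((rfl | he) | ⟨i, rfl⟩)
    · exact Or.inl rfl
    · exact Or.inr (Or.inl he)
    · exact Or.inr (Or.inr ⟨i, rfl⟩)
  · rintro (rfl | he | ⟨i, rfl⟩)
    · exact Or.inl (Or.inl rfl)
    · exact Or.inl (Or.inr he)
    · exact Or.inr ⟨i, rfl⟩

theorem mvz : MvzStmt := by
  intro k _ σ f f1 p hp V h c hh
  refine ⟨⟨fun S _ _ x => ⟨x.crd, fun e he => x.eq e ((eqs_iff hp V h c hh e).2 he)⟩, ?_⟩,
    ?_, ?_, ?_⟩
  · intro S _ _
    refine ⟨fun x x' hx => ?_, fun y => ?_⟩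
    · have h1 : x.crd = x'.crd := 
      congrArg (fun z : ((mv f p hp V).zero h c hh).Pt S => z.crd) hx
      cases x
      cases x'
      cases h1
      rfl
    · exact ⟨⟨y.crd, fun e he => y.eq e ((eqs_iff hp V h c hh e).1 he)⟩, rfl⟩
  · intro S S' _ _ _ _ φ x x' hx i
    exact hx i
  · intro S _ _ c' x x' hx i
    exact hx i
  · intro S _ _ x i
    rfl

end Pool.Agent.ISO.H64
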